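import Mathlib

/-!
# Convergence in law and convergence of the variances give convergence of the covariance
-/

set_option autoImplicit false

open MeasureTheory ProbabilityTheory Filter Topology

namespace Pool.Agent.W2helper98.KQ

section lower

variable {E : Type*} [TopologicalSpace E] [MeasurableSpace E] [OpensMeasurableSpace E]
  {ι : Type*} {l : Filter ι}

/-- lower semicontinuity of the integral of a nonnegative continuous function -/
theorem lsc {μs : ι → ProbabilityMeasure E} {μ : ProbabilityMeasure E}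
    (h : Tendsto μs l (𝓝 μ)) {f : E → ℝ} (hf : Continuous f) (hf0 : ∀ x, 0 ≤ f x)
    (hi : ∀ᶠ i in l, Integrable f (μs i : Measure E)) (hμ : Integrable f (μ : Measure E))
    {a : ℝ} (ha : a < ∫ x, f x ∂(μ : Measure E)) :
    ∀ᶠ i in l, a < ∫ x, f x ∂(μs i : Measure E) := by
  have h1 : Tendsto (fun M : ℕ => ∫ x, min (f x) M ∂(μ : Measure E)) atTop
      (𝓝 (∫ x, f x ∂(μ : Measure E))) := by
    refine tendsto_integral_of_dominated_convergence f (fun M => ?_) hμ (fun M => ?_) ?_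
    · exact (hf.min continuous_const).measurable.aestronglyMeasurable
    · refine Eventually.of_forall fun x => ?_
      rw [Real.norm_of_nonneg (le_min (hf0 x) (Nat.cast_nonneg M))]
      exact min_le_left _ _
    · refine Eventually.of_forall fun x => ?_
      obtain ⟨N, hN⟩ := exists_nat_ge (f x)
      refine tendsto_const_nhds.congr' ?_
      filter_upwards [eventually_ge_atTop N] with M hM
      rw [min_eq_left]
      exact hN.trans (by exact_mod_cast hM)
  obtain ⟨M, hM⟩ := ((tendsto_order.1 h1).1 a ha).exists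
  let g : BoundedContinuousFunction E ℝ :=
    BoundedContinuousFunction.ofNormedAddCommGroup (fun x => min (f x) (M : ℝ))
      (hf.min continuous_const) M (fun x => by
        rw [Real.norm_of_nonneg (le_min (hf0 x) (Nat.cast_nonneg M))]
        exact min_le_right _ _)
  have h2 := (ProbabilityMeasure.tendsto_iff_forall_integral_tendsto.1 h) g
  have h3 : a < ∫ x, g x ∂(μ : Measure E) := hM
  filter_upwards [(tendsto_order.1 h2).1 a h3, hi] with i h4 h5
  refine h4.trans_le (integral_mono ?_ h5 fun x => min_le_left _ _)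
  exact BoundedContinuousFunction.integrable (μs i : Measure E) g

/-- a continuous function which is dominated by one whose integrals converge -/
theorem conv_dom {μs : ι → ProbabilityMeasure E} {μ : ProbabilityMeasure E}
    (h : Tendsto μs l (𝓝 μ)) {w g : E → ℝ} (hw : Continuous w) (hg : Continuous g)
    (hwg : ∀ x, |g x| ≤ w x)
    (hi : ∀ᶠ i in l, Integrable w (μs i : Measure E)) (hμ : Integrable w (μ : Measure E))
    (hc : Tendsto (fun i => ∫ x, w x ∂(μs i : Measure E)) l (𝓝 (∫ x, w x ∂(μ : Measure E)))) :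
    Tendsto (fun i => ∫ x, g x ∂(μs i : Measure E)) l (𝓝 (∫ x, g x ∂(μ : Measure E))) := by
  have hgi : ∀ ν : ProbabilityMeasure E, Integrable w (ν : Measure E) →
      Integrable g (ν : Measure E) := fun ν hν =>
    hν.mono' hg.measurable.aestronglyMeasurable (Eventually.of_forall fun x => hwg x)
  rw [Metric.tendsto_nhds]
  intro ε hε
  have e1 : ∫ x, (w x + g x) ∂(μ : Measure E) =
      (∫ x, w x ∂(μ : Measure E)) + ∫ x, g x ∂(μ : Measure E) := integral_add hμ (hgi μ hμ)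
  have e2 : ∫ x, (w x - g x) ∂(μ : Measure E) =
      (∫ x, w x ∂(μ : Measure E)) - ∫ x, g x ∂(μ : Measure E) := integral_sub hμ (hgi μ hμ)
  have h1 := lsc h (hw.add hg) (fun x => by
      have := hwg x
      have := neg_abs_le (g x)
      show 0 ≤ w x + g x
      linarith)
    (hi.mono fun i hi => hi.add (hgi _ hi)) (hμ.add (hgi μ hμ))
    (a := (∫ x, (w x + g x) ∂(μ : Measure E)) - ε / 2) (by
      show (∫ x, (w x + g x) ∂(μ : Measure E)) - ε / 2 < ∫ x, (w x + g x) ∂(μ : Measure E)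
      linarith)
  have h2 := lsc h (hw.sub hg) (fun x => by
      have := hwg x
      have := le_abs_self (g x)
      show 0 ≤ w x - g x
      linarith)
    (hi.mono fun i hi => hi.sub (hgi _ hi)) (hμ.sub (hgi μ hμ))
    (a := (∫ x, (w x - g x) ∂(μ : Measure E)) - ε / 2) (by
      show (∫ x, (w x - g x) ∂(μ : Measure E)) - ε / 2 < ∫ x, (w x - g x) ∂(μ : Measure E)
      linarith)
  have h3 := (Metric.tendsto_nhds.1 hc) (ε / 2) (by linarith)
  filter_upwards [h1, h2, h3, hi] with i a1 a2 a3 a4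
  have b1 : ∫ x, (w x + g x) ∂(μs i : Measure E) =
      (∫ x, w x ∂(μs i : Measure E)) + ∫ x, g x ∂(μs i : Measure E) := integral_add a4 (hgi _ a4)
  have b2 : ∫ x, (w x - g x) ∂(μs i : Measure E) =
      (∫ x, w x ∂(μs i : Measure E)) - ∫ x, g x ∂(μs i : Measure E) := integral_sub a4 (hgi _ a4)
  have c1 : (∫ x, (w x + g x) ∂(μ : Measure E)) - ε / 2 <
      ∫ x, (w x + g x) ∂(μs i : Measure E) := a1
  have c2 : (∫ x, (w x - g x) ∂(μ : Measure E)) - ε / 2 <
      ∫ x, (w x - g x) ∂(μs i : Measure E) := a2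
  rw [Real.dist_eq, abs_lt] at a3 ⊢
  rw [b1, e1] at c1
  rw [b2, e2] at c2
  constructor <;> linarith [a3.1, a3.2]

end lower

/-- the integral over the product of two copies -/
theorem prod_int {E : Type*} [MeasurableSpace E] (μ : Measure E) [IsProbabilityMeasure μ]
    {F G : E → ℝ} (hF : MemLp F 2 μ) (hG : MemLp G 2 μ) :
    Integrable (fun z : E × E => (F z.1 - F z.2) * (G z.1 - G z.2)) (μ.prod μ) ∧
    ∫ z : E × E, (F z.1 - F z.2) * (G z.1 - G z.2) ∂(μ.prod μ) = 2 * cov[F, G; μ] := by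
  have hFG : Integrable (fun x => F x * G x) μ := hF.integrable_mul hG
  have hF1 : Integrable F μ := hF.integrable (by norm_num)
  have hG1 : Integrable G μ := hG.integrable (by norm_num)
  have i1 : Integrable (fun z : E × E => F z.1 * G z.1) (μ.prod μ) := hFG.comp_fst μ
  have i2 : Integrable (fun z : E × E => F z.2 * G z.2) (μ.prod μ) := hFG.comp_snd μ
  have i3 : Integrable (fun z : E × E => F z.1 * G z.2) (μ.prod μ) := hF1.mul_prod hG1
  have i4 : Integrable (fun z : E × E => G z.1 * F z.2) (μ.prod μ) := hG1.mul_prod hF1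
  have e : (fun z : E × E => (F z.1 - F z.2) * (G z.1 - G z.2)) = fun z =>
      ((F z.1 * G z.1 + F z.2 * G z.2) - (F z.1 * G z.2 + G z.1 * F z.2)) := by
    funext z
    ring
  have j1 : Integrable (fun z : E × E => F z.1 * G z.1 + F z.2 * G z.2) (μ.prod μ) := i1.add i2
  have j2 : Integrable (fun z : E × E => F z.1 * G z.2 + G z.1 * F z.2) (μ.prod μ) := i3.add i4
  rw [e]
  refine ⟨j1.sub j2, ?_⟩
  rw [integral_sub j1 j2, integral_add i1 i2, integral_add i3 i4,
    integral_prod_mul (fun x => F x) (fun x => G x),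
    integral_prod_mul (fun x => G x) (fun x => F x)]
  have k1 : ∫ z : E × E, F z.1 * G z.1 ∂(μ.prod μ) = ∫ x, F x * G x ∂μ := by
    rw [integral_prod _ i1]
    simp
  have k2 : ∫ z : E × E, F z.2 * G z.2 ∂(μ.prod μ) = ∫ x, F x * G x ∂μ := by
    rw [integral_prod _ i2]
    simp
  rw [k1, k2, covariance_eq_sub hF hG]
  show _ = 2 * ((∫ x, F x * G x ∂μ) - (∫ x, F x ∂μ) * ∫ x, G x ∂μ)
  ring

/-- convergence of the covariances -/
theorem cov_conv {ι : Type*} {l : Filter ι} {μs : ι → ProbabilityMeasure (ℝ × ℝ)}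
    {μ : ProbabilityMeasure (ℝ × ℝ)} (h : Tendsto μs l (𝓝 μ))
    (h1 : ∀ᶠ i in l, MemLp (fun p : ℝ × ℝ => p.1) 2 (μs i : Measure (ℝ × ℝ)))
    (h2 : ∀ᶠ i in l, MemLp (fun p : ℝ × ℝ => p.2) 2 (μs i : Measure (ℝ × ℝ)))
    (h3 : MemLp (fun p : ℝ × ℝ => p.1) 2 (μ : Measure (ℝ × ℝ)))
    (h4 : MemLp (fun p : ℝ × ℝ => p.2) 2 (μ : Measure (ℝ × ℝ)))
    (v1 : Tendsto (fun i => Var[fun p : ℝ × ℝ => p.1; (μs i : Measure (ℝ × ℝ))]) l
      (𝓝 Var[fun p : ℝ × ℝ => p.1; (μ : Measure (ℝ × ℝ))]))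
    (v2 : Tendsto (fun i => Var[fun p : ℝ × ℝ => p.2; (μs i : Measure (ℝ × ℝ))]) l
      (𝓝 Var[fun p : ℝ × ℝ => p.2; (μ : Measure (ℝ × ℝ))])) :
    Tendsto (fun i => cov[fun p : ℝ × ℝ => p.1, fun p : ℝ × ℝ => p.2;
      (μs i : Measure (ℝ × ℝ))]) l
      (𝓝 cov[fun p : ℝ × ℝ => p.1, fun p : ℝ × ℝ => p.2; (μ : Measure (ℝ × ℝ))]) := by
  have hp : Tendsto (fun i => (μs i).prod (μs i)) l (𝓝 (μ.prod μ)) := by
    have hc : Continuous (fun ν : ProbabilityMeasure (ℝ × ℝ) × ProbabilityMeasure (ℝ × ℝ) =>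
      ν.1.prod ν.2) := ProbabilityMeasure.continuous_prod
    exact (hc.tendsto (μ, μ)).comp (h.prodMk_nhds h)
  let w : (ℝ × ℝ) × (ℝ × ℝ) → ℝ := fun z =>
    ((z.1.1 - z.2.1) * (z.1.1 - z.2.1) + (z.1.2 - z.2.2) * (z.1.2 - z.2.2)) / 2
  let g : (ℝ × ℝ) × (ℝ × ℝ) → ℝ := fun z => (z.1.1 - z.2.1) * (z.1.2 - z.2.2)
  have key : ∀ ν : ProbabilityMeasure (ℝ × ℝ),
      MemLp (fun p : ℝ × ℝ => p.1) 2 (ν : Measure (ℝ × ℝ)) →
      MemLp (fun p : ℝ × ℝ => p.2) 2 (ν : Measure (ℝ × ℝ)) →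
      Integrable w ((ν.prod ν : ProbabilityMeasure _) : Measure ((ℝ × ℝ) × (ℝ × ℝ))) ∧
      (∫ z, w z ∂((ν.prod ν : ProbabilityMeasure _) : Measure ((ℝ × ℝ) × (ℝ × ℝ)))) =
        Var[fun p : ℝ × ℝ => p.1; (ν : Measure (ℝ × ℝ))] +
          Var[fun p : ℝ × ℝ => p.2; (ν : Measure (ℝ × ℝ))] ∧
      (∫ z, g z ∂((ν.prod ν : ProbabilityMeasure _) : Measure ((ℝ × ℝ) × (ℝ × ℝ)))) =
        2 * cov[fun p : ℝ × ℝ => p.1, fun p : ℝ × ℝ => p.2; (ν : Measure (ℝ × ℝ))] := by
    intro ν a1 a2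
    obtain ⟨b1, b2⟩ := prod_int (ν : Measure (ℝ × ℝ)) a1 a1
    obtain ⟨c1, c2⟩ := prod_int (ν : Measure (ℝ × ℝ)) a2 a2
    obtain ⟨d1, d2⟩ := prod_int (ν : Measure (ℝ × ℝ)) a1 a2
    rw [covariance_self a1.aestronglyMeasurable.aemeasurable] at b2
    rw [covariance_self a2.aestronglyMeasurable.aemeasurable] at c2
    rw [ProbabilityMeasure.toMeasure_prod]
    refine ⟨(b1.add c1).div_const 2, ?_, d2⟩
    show ∫ z : (ℝ × ℝ) × (ℝ × ℝ), ((z.1.1 - z.2.1) * (z.1.1 - z.2.1) +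
      (z.1.2 - z.2.2) * (z.1.2 - z.2.2)) / 2 ∂((ν : Measure (ℝ × ℝ)).prod (ν : Measure (ℝ × ℝ))) = _
    rw [integral_div, integral_add b1 c1, b2, c2]
    ring
  obtain ⟨m1, m2, m3⟩ := key μ h3 h4
  have hconv := conv_dom hp (w := w) (g := g) (by fun_prop) (by fun_prop) (fun z => by
      show |(z.1.1 - z.2.1) * (z.1.2 - z.2.2)| ≤ ((z.1.1 - z.2.1) * (z.1.1 - z.2.1) +
        (z.1.2 - z.2.2) * (z.1.2 - z.2.2)) / 2
      rw [abs_le]
      constructor
      · nlinarith [sq_nonneg ((z.1.1 - z.2.1) + (z.1.2 - z.2.2))]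
      · nlinarith [sq_nonneg ((z.1.1 - z.2.1) - (z.1.2 - z.2.2))])
    (by
      filter_upwards [h1, h2] with i a1 a2
      exact (key _ a1 a2).1) m1 (by
      rw [m2]
      refine (v1.add v2).congr' ?_
      filter_upwards [h1, h2] with i a1 a2
      exact ((key _ a1 a2).2.1).symm)
  rw [m3] at hconv
  have h5 := hconv.const_mul (1 / 2)
  have h6 : (1 / 2 : ℝ) * (2 * cov[fun p : ℝ × ℝ => p.1, fun p : ℝ × ℝ => p.2;
      (μ : Measure (ℝ × ℝ))]) = cov[fun p : ℝ × ℝ => p.1, fun p : ℝ × ℝ => p.2;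
      (μ : Measure (ℝ × ℝ))] := by ring
  rw [h6] at h5
  refine h5.congr' ?_
  filter_upwards [h1, h2] with i a1 a2
  rw [(key _ a1 a2).2.2]
  ring

end Pool.Agent.W2helper98.KQ
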