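import Pool.Agent.W2helper98.KQ.Core

/-!
# Correlations of a space-time stationary field at the scale of its limit
-/

set_option autoImplicit false

open MeasureTheory ProbabilityTheory Filter Topology

namespace Pool.Agent.W2helper98.KQ

section

variable {Ω Ω' : Type} [MeasurableSpace Ω] [MeasurableSpace Ω'] {P : Measure Ω}
  [IsProbabilityMeasure P] {P' : Measure Ω'} [IsProbabilityMeasure P'] {ι : Type} {l : Filter ι}

theorem push {P : Measure Ω} {X Y : Ω → ℝ} (hZ : AEMeasurable (fun ω => (X ω, Y ω)) P) :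
    (MemLp X 2 P → MemLp (fun p : ℝ × ℝ => p.1) 2 (P.map fun ω => (X ω, Y ω))) ∧
    (MemLp Y 2 P → MemLp (fun p : ℝ × ℝ => p.2) 2 (P.map fun ω => (X ω, Y ω))) ∧
    Var[fun p : ℝ × ℝ => p.1; P.map fun ω => (X ω, Y ω)] = Var[X; P] ∧
    Var[fun p : ℝ × ℝ => p.2; P.map fun ω => (X ω, Y ω)] = Var[Y; P] ∧
    cov[fun p : ℝ × ℝ => p.1, fun p : ℝ × ℝ => p.2; P.map fun ω => (X ω, Y ω)] =
      cov[X, Y; P] := by
  have s1 : AEStronglyMeasurable (fun p : ℝ × ℝ => p.1) (P.map fun ω => (X ω, Y ω)) :=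
    measurable_fst.aestronglyMeasurable
  have s2 : AEStronglyMeasurable (fun p : ℝ × ℝ => p.2) (P.map fun ω => (X ω, Y ω)) :=
    measurable_snd.aestronglyMeasurable
  refine ⟨fun h => ?_, fun h => ?_, ?_, ?_, ?_⟩
  · rw [memLp_map_measure_iff s1 hZ]
    exact h
  · rw [memLp_map_measure_iff s2 hZ]
    exact h
  · rw [variance_map s1.aemeasurable hZ]
    rfl
  · rw [variance_map s2.aemeasurable hZ]
    rfl
  · rw [covariance_map_fun s1 s2 hZ]

theorem cov_tid {X Y : ι → Ω → ℝ} {X' Y' : Ω' → ℝ}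
    (h : TendstoInDistribution (fun i ω => (X i ω, Y i ω)) l (fun ω => (X' ω, Y' ω))
      (fun _ => P) P')
    (h1 : ∀ᶠ i in l, MemLp (X i) 2 P) (h2 : ∀ᶠ i in l, MemLp (Y i) 2 P)
    (h3 : MemLp X' 2 P') (h4 : MemLp Y' 2 P')
    (v1 : Tendsto (fun i => Var[X i; P]) l (𝓝 Var[X'; P']))
    (v2 : Tendsto (fun i => Var[Y i; P]) l (𝓝 Var[Y'; P'])) :
    Tendsto (fun i => cov[X i, Y i; P]) l (𝓝 cov[X', Y'; P']) := by
  obtain ⟨a1, a2, a3, a4, a5⟩ := push h.aemeasurable_limit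
  have hb := fun i => push (P := P) (h.forall_aemeasurable i)
  have key := cov_conv h.tendsto
    (h1.mono fun i hi => (hb i).1 hi) (h2.mono fun i hi => (hb i).2.1 hi) (a1 h3) (a2 h4)
    (by
      show Tendsto (fun i => Var[fun p : ℝ × ℝ => p.1; P.map fun ω => (X i ω, Y i ω)]) l
        (𝓝 Var[fun p : ℝ × ℝ => p.1; P'.map fun ω => (X' ω, Y' ω)])
      rw [a3]
      refine v1.congr fun i => ?_
      rw [(hb i).2.2.1])
    (by
      show Tendsto (fun i => Var[fun p : ℝ × ℝ => p.2; P.map fun ω => (X i ω, Y i ω)]) l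
        (𝓝 Var[fun p : ℝ × ℝ => p.2; P'.map fun ω => (X' ω, Y' ω)])
      rw [a4]
      refine v2.congr fun i => ?_
      rw [(hb i).2.2.2.1])
  have key' : Tendsto (fun i => cov[fun p : ℝ × ℝ => p.1, fun p : ℝ × ℝ => p.2;
      P.map fun ω => (X i ω, Y i ω)]) l
      (𝓝 cov[fun p : ℝ × ℝ => p.1, fun p : ℝ × ℝ => p.2; P'.map fun ω => (X' ω, Y' ω)]) := key
  rw [a5] at key'
  refine key'.congr fun i => ?_
  rw [(hb i).2.2.2.2]

/-- Correlation. -/
noncomputable def corr (P : Measure Ω) (X Y : Ω → ℝ) : ℝ := cov[X, Y; P] / √(Var[X; P] * Var[Y; P])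

/-- The rescaled field, centred by a deterministic function of the time. -/
noncomputable def resc (H : ℝ → ℝ → Ω → ℝ) (c : ℝ → ℝ → ℝ) (ε t x : ℝ) (ω : Ω) : ℝ :=
  √ε * H (2 * ε ^ (-(3 / 2) : ℝ) * t) (2 * ε⁻¹ * x) ω + c ε t

variable {H : ℝ → ℝ → Ω → ℝ} {K : ℝ → ℝ → Ω' → ℝ} {c : ℝ → ℝ → ℝ}

theorem memLp_H (hsq : ∀ t, 0 < t → MemLp (H t 0) 2 P) (hm : ∀ t x, AEMeasurable (H t x) P)
    (hinc : ∀ t x, 0 < t → P.map (fun ω => H t x ω - H t 0 ω) = gaussianReal 0 (Real.toNNReal |x|))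
    (t x : ℝ) (ht : 0 < t) : MemLp (fun ω => H t x ω - H t 0 ω) 2 P ∧ MemLp (H t x) 2 P := by
  have hm' : AEMeasurable (fun ω => H t x ω - H t 0 ω) P := (hm t x).sub (hm t 0)
  have h1 : MemLp (fun ω => H t x ω - H t 0 ω) 2 P := by
    have h2 : MemLp (id : ℝ → ℝ) 2 (P.map (fun ω => H t x ω - H t 0 ω)) := by
      rw [hinc t x ht]
      exact memLp_id_gaussianReal 2
    rw [memLp_map_measure_iff measurable_id.aestronglyMeasurable hm'] at h2
    exact h2
  refine ⟨h1, ?_⟩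
  have h3 := h1.add (hsq t ht)
  refine h3.congr_norm (hm t x).aestronglyMeasurable ?_
  refine Eventually.of_forall fun ω => ?_
  simp

theorem memLp_resc (ε t x : ℝ) (h : MemLp (H (2 * ε ^ (-(3 / 2) : ℝ) * t) (2 * ε⁻¹ * x)) 2 P) :
    MemLp (resc H c ε t x) 2 P :=
  (h.const_mul (√ε)).add (memLp_const (c ε t))

theorem var_resc {ε : ℝ} (hε : 0 < ε) (t x : ℝ)
    (h : MemLp (H (2 * ε ^ (-(3 / 2) : ℝ) * t) (2 * ε⁻¹ * x)) 2 P) :
    Var[resc H c ε t x; P] = ε * Var[H (2 * ε ^ (-(3 / 2) : ℝ) * t) (2 * ε⁻¹ * x); P] := by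
  unfold resc
  rw [variance_add_const (h.const_mul (√ε)).aestronglyMeasurable, variance_const_mul,
    Real.sq_sqrt hε.le]

theorem cov_resc {ε : ℝ} (hε : 0 < ε) (t x t' x' : ℝ)
    (h : MemLp (H (2 * ε ^ (-(3 / 2) : ℝ) * t) (2 * ε⁻¹ * x)) 2 P)
    (h' : MemLp (H (2 * ε ^ (-(3 / 2) : ℝ) * t') (2 * ε⁻¹ * x')) 2 P) :
    cov[resc H c ε t x, resc H c ε t' x'; P] =
      ε * cov[H (2 * ε ^ (-(3 / 2) : ℝ) * t) (2 * ε⁻¹ * x),
        H (2 * ε ^ (-(3 / 2) : ℝ) * t') (2 * ε⁻¹ * x'); P] := by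
  unfold resc
  rw [covariance_add_const_left ((h.const_mul (√ε)).integrable (by norm_num)),
    covariance_add_const_right ((h'.const_mul (√ε)).integrable (by norm_num)),
    covariance_const_mul_left, covariance_const_mul_right, ← mul_assoc, Real.mul_self_sqrt hε.le]

theorem main (hm : ∀ t x, AEMeasurable (H t x) P)
    (hsq : ∀ t, 0 < t → MemLp (H t 0) 2 P)
    (hinc : ∀ t x, 0 < t → P.map (fun ω => H t x ω - H t 0 ω) = gaussianReal 0 (Real.toNNReal |x|))
    (hK : ∀ t x, 0 < t → MemLp (K t x) 2 P')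
    (hlim : ∀ t x t' x', 0 < t → 0 < t' → TendstoInDistribution
      (fun ε ω => (resc H c ε t x ω, resc H c ε t' x' ω)) (𝓝[>] 0)
      (fun ω => (K t x ω, K t' x' ω)) (fun _ => P) P')
    (hvar : ∀ t, 0 < t → Tendsto (fun ε : ℝ => ε * Var[H (2 * ε ^ (-(3 / 2) : ℝ) * t) 0; P])
      (𝓝[>] 0) (𝓝 Var[K t 0; P'])) :
    (∀ t x, 0 < t → Tendsto (fun ε => Var[resc H c ε t x; P]) (𝓝[>] 0) (𝓝 Var[K t x; P'])) ∧
    ∀ t x t' x', 0 < t → 0 < t' → Tendsto (fun ε => cov[resc H c ε t x, resc H c ε t' x'; P])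
      (𝓝[>] 0) (𝓝 cov[K t x, K t' x'; P']) := by
  have hpos : ∀ᶠ ε : ℝ in 𝓝[>] 0, 0 < ε := eventually_mem_nhdsWithin
  have hT : ∀ ε t : ℝ, 0 < ε → 0 < t → 0 < 2 * ε ^ (-(3 / 2) : ℝ) * t := fun ε t hε ht => by
    have := Real.rpow_pos_of_pos hε (-(3 / 2) : ℝ)
    positivity
  have hL : ∀ ε t x : ℝ, 0 < ε → 0 < t →
      MemLp (H (2 * ε ^ (-(3 / 2) : ℝ) * t) (2 * ε⁻¹ * x)) 2 P := fun ε t x hε ht =>
    (memLp_H hsq hm hinc _ _ (hT ε t hε ht)).2
  have hA : ∀ t x : ℝ, 0 < t → ∀ᶠ ε : ℝ in 𝓝[>] 0, MemLp (resc H c ε t x) 2 P := fun t x ht =>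
    hpos.mono fun ε hε => memLp_resc ε t x (hL ε t x hε ht)
  -- the variances
  have hV0 : ∀ t, 0 < t → Tendsto (fun ε => Var[resc H c ε t 0; P]) (𝓝[>] 0)
      (𝓝 Var[K t 0; P']) := by
    intro t ht
    refine (hvar t ht).congr' ?_
    filter_upwards [hpos] with ε hε
    have h1 := var_resc (c := c) hε t 0 (hL ε t 0 hε ht)
    rw [h1, mul_zero]
  have hV : ∀ t x, 0 < t → Tendsto (fun ε => Var[resc H c ε t x; P]) (𝓝[>] 0)
      (𝓝 Var[K t x; P']) := by
    intro t x ht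
    -- the increments
    have hD : ∀ ε : ℝ, 0 < ε → P.map (fun ω => resc H c ε t x ω - resc H c ε t 0 ω) =
        gaussianReal 0 (Real.toNNReal (2 * |x|)) := by
      intro ε hε
      have e1 : (fun ω => resc H c ε t x ω - resc H c ε t 0 ω) =
          (fun y => √ε * y) ∘ fun ω => H (2 * ε ^ (-(3 / 2) : ℝ) * t) (2 * ε⁻¹ * x) ω -
            H (2 * ε ^ (-(3 / 2) : ℝ) * t) 0 ω := by
        funext ω
        simp only [resc, Function.comp, mul_zero]
        ring
      have hm' : AEMeasurable (fun ω => H (2 * ε ^ (-(3 / 2) : ℝ) * t) (2 * ε⁻¹ * x) ω -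
          H (2 * ε ^ (-(3 / 2) : ℝ) * t) 0 ω) P := (hm _ _).sub (hm _ _)
      rw [e1, ← AEMeasurable.map_map_of_aemeasurable (measurable_const_mul _).aemeasurable
        hm', hinc _ _ (hT ε t hε ht), gaussianReal_map_const_mul, mul_zero]
      congr 1
      apply NNReal.coe_injective
      rw [NNReal.coe_mul, NNReal.coe_mk, Real.sq_sqrt hε.le, Real.coe_toNNReal _ (abs_nonneg _),
        Real.coe_toNNReal _ (by positivity), abs_mul, abs_mul, abs_of_pos (inv_pos.2 hε),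
        abs_of_pos (by norm_num : (0 : ℝ) < 2)]
      field_simp
    have hd := (hlim t 0 t x ht ht).continuous_comp
      (g := fun p : ℝ × ℝ => (p.1, p.2 - p.1)) (by fun_prop)
    have hd1 : TendstoInDistribution (fun ε ω => (resc H c ε t 0 ω,
        resc H c ε t x ω - resc H c ε t 0 ω)) (𝓝[>] 0)
        (fun ω => (K t 0 ω, K t x ω - K t 0 ω)) (fun _ => P) P' := hd
    have hd2 := hd1.continuous_comp (g := fun p : ℝ × ℝ => p.2) (by fun_prop)
    have hd3 : TendstoInDistribution (fun ε ω => resc H c ε t x ω - resc H c ε t 0 ω) (𝓝[>] 0)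
        (fun ω => K t x ω - K t 0 ω) (fun _ => P) P' := hd2
    have hKD : P'.map (fun ω => K t x ω - K t 0 ω) = gaussianReal 0 (Real.toNNReal (2 * |x|)) := by
      have h1 := hd3.tendsto
      have h2 : Tendsto (β := ProbabilityMeasure ℝ)
          (fun ε : ℝ => ⟨P.map (fun ω => resc H c ε t x ω - resc H c ε t 0 ω),
          Measure.isProbabilityMeasure_map (hd3.forall_aemeasurable ε)⟩)
          (𝓝[>] 0) (𝓝 ⟨gaussianReal 0 (Real.toNNReal (2 * |x|)), inferInstance⟩) := by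
        refine tendsto_const_nhds.congr' ?_
        filter_upwards [hpos] with ε hε
        exact Subtype.ext (hD ε hε).symm
      have h3 := tendsto_nhds_unique h1 h2
      exact congrArg Subtype.val h3
    have hDm : ∀ᶠ ε : ℝ in 𝓝[>] 0,
        MemLp (fun ω => resc H c ε t x ω - resc H c ε t 0 ω) 2 P := by
      filter_upwards [hA t x ht, hA t 0 ht] with ε a1 a2
      exact a1.sub a2
    have hvD : ∀ ε : ℝ, 0 < ε → Var[fun ω => resc H c ε t x ω - resc H c ε t 0 ω; P] =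
        2 * |x| := by
      intro ε hε
      have h1 := variance_map (μ := P) (X := (id : ℝ → ℝ))
        (Y := fun ω => resc H c ε t x ω - resc H c ε t 0 ω)
        measurable_id.aemeasurable (hd3.forall_aemeasurable ε)
      rw [hD ε hε, variance_id_gaussianReal] at h1
      rw [Real.coe_toNNReal _ (by positivity)] at h1
      exact h1.symm
    have hvK : Var[fun ω => K t x ω - K t 0 ω; P'] = 2 * |x| := by
      have h1 := variance_map (μ := P') (X := (id : ℝ → ℝ))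
        (Y := fun ω => K t x ω - K t 0 ω)
        measurable_id.aemeasurable hd3.aemeasurable_limit
      rw [hKD, variance_id_gaussianReal] at h1
      rw [Real.coe_toNNReal _ (by positivity)] at h1
      exact h1.symm
    have hKD2 : MemLp (fun ω => K t x ω - K t 0 ω) 2 P' := (hK t x ht).sub (hK t 0 ht)
    have hvDt : Tendsto (fun ε => Var[fun ω => resc H c ε t x ω - resc H c ε t 0 ω; P]) (𝓝[>] 0)
        (𝓝 Var[fun ω => K t x ω - K t 0 ω; P']) := by
      rw [hvK]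
      refine tendsto_const_nhds.congr' ?_
      filter_upwards [hpos] with ε hε
      exact (hvD ε hε).symm
    have hc := cov_tid hd1 (hA t 0 ht) hDm (hK t 0 ht) hKD2 (hV0 t ht) hvDt
    have hsum := ((hV0 t ht).add (hc.const_mul 2)).add hvDt
    have e2 : Var[K t 0; P'] + 2 * cov[K t 0, fun ω => K t x ω - K t 0 ω; P'] +
        Var[fun ω => K t x ω - K t 0 ω; P'] = Var[K t x; P'] := by
      rw [← variance_add (hK t 0 ht) hKD2]
      congr 1
      funext ω
      simp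
    rw [e2] at hsum
    refine hsum.congr' ?_
    filter_upwards [hA t 0 ht, hDm] with ε a1 a2
    rw [← variance_add a1 a2]
    congr 1
    funext ω
    simp
  refine ⟨hV, ?_⟩
  intro t x t' x' ht ht'
  exact cov_tid (hlim t x t' x' ht ht') (hA t x ht) (hA t' x' ht') (hK t x ht) (hK t' x' ht')
    (hV t x ht) (hV t' x' ht')

end

end Pool.Agent.W2helper98.KQ
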